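import Pool.Agent.H37.CTO.Stmts
import Pool.Agent.H56.CTL.T56

/-!
# Board `cto`, row P56
-/

set_option autoImplicit false

namespace Pool.CND

open Finset Polynomial

namespace P56H56

open T56H56

theorem arith {p f q s ν : ℕ} (hp : p.Prime) (hp2 : p ≠ 2) (hf : 1 ≤ f) (hq : q = p ^ f)
    (hν : ν = nu q s) : 3 ≤ q ∧ 3 ≤ q ^ (s + 1) ∧ p ∣ q ∧ p ∣ q ^ (s + 1) ∧ p ∣ ν + 2 ∧ 4 ≤ ν ∧
      ¬ p ∣ 2 := by
  have hp3 : 3 ≤ p := by
    have := hp.two_le
    omega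
  have hpq : p ∣ q := by
    rw [hq]
    exact dvd_pow_self p (by omega)
  have hq0 : 0 < q := by rw [hq]; exact pow_pos hp.pos f
  have hq3 : 3 ≤ q := hp3.trans (Nat.le_of_dvd hq0 hpq)
  have hQ3 : 3 ≤ q ^ (s + 1) := hq3.trans (Nat.le_self_pow (by omega) q)
  have hpQ : p ∣ q ^ (s + 1) := dvd_pow hpq (by omega)
  have hQ9 : q ^ (s + 1) * q = q ^ (s + 2) := by ring
  have h9 : 9 ≤ q ^ (s + 2) := by
    rw [← hQ9]
    calc 9 = 3 * 3 := rfl
      _ ≤ _ := Nat.mul_le_mul hQ3 hq3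
  have hsum : 1 ≤ ∑ i ∈ range (s + 1), q ^ i := by
    rw [Finset.sum_range_succ']
    simp
  have h1 : ν + 2 = q ^ (s + 1) + q * ((q ^ (s + 2) - 2) * ∑ i ∈ range (s + 1), q ^ i) := by
    rw [hν, nu, mul_assoc]
    omega
  have h2 : 3 * (7 * 1) ≤ q * ((q ^ (s + 2) - 2) * ∑ i ∈ range (s + 1), q ^ i) :=
    Nat.mul_le_mul hq3 (Nat.mul_le_mul (by omega) hsum)
  refine ⟨hq3, hQ3, hpq, hpQ, ?_, by omega, fun h => ?_⟩
  · rw [h1]
    exact dvd_add hpQ (Dvd.dvd.mul_right hpq _)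
  · have := Nat.le_of_dvd (by norm_num) h
    omega

theorem ndvd {p Q ν : ℕ} (hp : p.Prime) (hQ : p ∣ Q) (h2 : p ∣ ν + 2) (h3 : ¬ p ∣ 2) :
    ¬ p ∣ ν ∧ ¬ p ∣ (ν + 1) ∧ ¬ p ∣ (Q * (ν - 1) + 2) := by
  refine ⟨fun h => h3 ((Nat.dvd_add_right h).1 h2), fun h => ?_, fun h => ?_⟩
  · have h4 : p ∣ (ν + 1) + 1 := h2
    exact hp.one_lt.ne' (Nat.dvd_one.1 ((Nat.dvd_add_right h).1 h4))
  · exact h3 ((Nat.dvd_add_right (Dvd.dvd.mul_right hQ _)).1 h)

variable {k : Type} [Field k] [IsAlgClosed k]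

theorem red2 (h_xt2 : S_XT2) {p d Q ν : ℕ} [CharP k p] (hp : p.Prime) (hp2 : p ≠ 2) (hd : 1 ≤ d)
    (hQ : Q = p ^ d) (hν4 : 4 ≤ ν) (hν2 : p ∣ ν + 2) (h32 : ¬ p ∣ 2) (α β : k) (hβ : β ≠ 0) :
    ∃ r : Polynomial k, ((C α * (X ^ Q - X) ^ ν + C β * (X * (X ^ Q - X) ^ ν -
      (X ^ Q - X) ^ (ν + 1))) - (r ^ p - r)).natDegree = Q * (ν - 1) + 2 := by
  have hpQ : p ∣ Q := by
    rw [hQ]
    exact dvd_pow_self p (by omega)
  obtain ⟨n1, n2, n3⟩ := ndvd hp hpQ hν2 h32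
  have hd0 : (0 : ℕ) ≠ d := by omega
  have he0 : ee k d 0 = -1 := by simp [ee, hd0]
  have hed : ee k d d = 1 := by simp [ee]
  obtain ⟨r, hr⟩ := h_xt2 p d k (ee k d) ν α β 0 (X ^ Q - X) hp hp2 hed
    (by rw [he0]; exact neg_ne_zero.2 one_ne_zero) (by rw [hQ]; exact ee_sum k p d hd) hd
    (by omega) n1 n2 hβ (by rw [natDegree_zero]; omega)
  refine ⟨r, ?_⟩
  have hνk : ((ν + 1 : ℕ) : k) = -1 := by
    have h4 : ((ν + 2 : ℕ) : k) = 0 := (CharP.cast_eq_zero_iff k p _).2 hν2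
    push_cast at h4 ⊢
    linear_combination h4
  rw [hνk, he0] at hr
  have hc : (-1 / ((-1 : k) * -1)) = -1 := by norm_num
  rw [hc, add_zero, ← hQ] at hr
  rw [← hr]
  congr 1
  rw [map_neg, map_one]
  ring

theorem red1 (h_xt1 : S_XT1) (h_xt2 : S_XT2) (h_xrd : S_XRD) {p d Q ν : ℕ} [CharP k p]
    (hp : p.Prime) (hp2 : p ≠ 2) (hd : 1 ≤ d) (hQ : Q = p ^ d) (hν4 : 4 ≤ ν) (hν2 : p ∣ ν + 2)
    (h32 : ¬ p ∣ 2) (α : k) (hα : α ≠ 0) : ∃ (D : ℕ) (r : Polynomial k), Q * (ν - 1) + 1 ≤ D ∧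
      D ≤ Q * (ν - 1) + 2 ∧ ¬ p ∣ D ∧ (C α * (X ^ Q - X) ^ ν - (r ^ p - r)).natDegree = D := by
  have hpQ : p ∣ Q := by
    rw [hQ]
    exact dvd_pow_self p (by omega)
  obtain ⟨n1, n2, n3⟩ := ndvd hp hpQ hν2 h32
  have hd0 : (0 : ℕ) ≠ d := by omega
  have he0 : ee k d 0 = -1 := by simp [ee, hd0]
  have hed : ee k d d = 1 := by simp [ee]
  have hxt := fun (g : Polynomial k) (hg : g.natDegree < p ^ d * (ν - 1) + 1) =>
    h_xt1 p d k (ee k d) ν α g (X ^ Q - X) hp hed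
    (by rw [he0]; exact neg_ne_zero.2 one_ne_zero) (by rw [hQ]; exact ee_sum k p d hd) hd
    (by omega) n1 hα hg
  rcases h_xrd p k (C α * (X ^ Q - X) ^ ν) hp with ⟨r, hr⟩ | ⟨D, r, hD1, hpD, hdeg⟩
  · exact absurd (by rw [add_zero]; exact hr) (hxt 0 (by rw [natDegree_zero]; omega) r)
  refine ⟨D, r, ?_, ?_, hpD, hdeg⟩
  · by_contra hc
    refine hxt (-(C α * (X ^ Q - X) ^ ν - (r ^ p - r))) ?_ r (by ring)
    rw [natDegree_neg, hdeg, ← hQ]
    omega
  · by_contra hc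
    obtain ⟨r₁, hr₁⟩ := red2 h_xt2 hp hp2 hd hQ hν4 hν2 h32 α (1 : k) one_ne_zero
    obtain ⟨r₂, hr₂⟩ := red2 h_xt2 hp hp2 hd hQ hν4 hν2 h32 (0 : k) (1 : k) one_ne_zero
    have hfact : Fact p.Prime := ⟨hp⟩
    have e1 : C α * (X ^ Q - X) ^ ν - ((r₁ - r₂) ^ p - (r₁ - r₂)) =
        ((C α * (X ^ Q - X) ^ ν + C 1 * (X * (X ^ Q - X) ^ ν - (X ^ Q - X) ^ (ν + 1))) -
          (r₁ ^ p - r₁)) - ((C 0 * (X ^ Q - X) ^ ν + C 1 * (X * (X ^ Q - X) ^ ν -
          (X ^ Q - X) ^ (ν + 1))) - (r₂ ^ p - r₂)) := by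
      have e0 : (r₁ - r₂) ^ p = r₁ ^ p - r₂ ^ p := sub_pow_char _ _
      rw [e0, map_zero]
      ring
    have h4 : (C α * (X ^ Q - X) ^ ν - ((r₁ - r₂) ^ p - (r₁ - r₂))).natDegree ≤
        Q * (ν - 1) + 2 := by
      rw [e1]
      exact (natDegree_sub_le _ _).trans (by rw [hr₁, hr₂, max_self])
    have h5 : ((C α * (X ^ Q - X) ^ ν - ((r₁ - r₂) ^ p - (r₁ - r₂))) -
        (C α * (X ^ Q - X) ^ ν - (r ^ p - r))).natDegree = D := by
      rw [natDegree_sub_eq_right_of_natDegree_lt, hdeg]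
      rw [hdeg]
      omega
    have e2 : (C α * (X ^ Q - X) ^ ν - ((r₁ - r₂) ^ p - (r₁ - r₂))) -
        (C α * (X ^ Q - X) ^ ν - (r ^ p - r)) =
        (r - (r₁ - r₂)) ^ p - (r - (r₁ - r₂)) := by
      have e0 : (r - (r₁ - r₂)) ^ p = r ^ p - (r₁ - r₂) ^ p := sub_pow_char _ _
      rw [e0]
      ring
    rw [e2] at h5
    apply hpD
    rw [← h5]
    exact deg_as hp _

end P56H56

open T56H56 P56H56 in
theorem p56_thm (h_umr : S_UMR) (h_xt1 : S_XT1) (h_xt2 : S_XT2) (h_xrd : S_XRD) : S_P56 := by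
  intro p k F L _ _ _ _ _ _ _ f q s t X G₀ _ ρ Y Yt Yp h z θ α P W M τ hp hp2 hchar hf hq hF hC ht
    hX0 hY0 hPY hun hθ hgeY hh hord hz hge hα hgeA hρh hW hM hτ hpτ hoz
  have := hchar
  obtain ⟨ν, hν⟩ : ∃ ν, ν = nu q s := ⟨_, rfl⟩
  obtain ⟨Q, hQ⟩ : ∃ Q, Q = q ^ (s + 1) := ⟨_, rfl⟩
  obtain ⟨hq3, hQ3, hpq, hpQ, hν2, hν4, h32⟩ := P56H56.arith hp hp2 hf hq hν
  have hQc : ((q : ℤ)) ^ (s + 1) = (Q : ℤ) := by rw [hQ]; push_cast; rfl
  rw [← hQ] at hQ3 hpQ hge ⊢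
  rw [hQc] at hord
  obtain ⟨n1, n2, n3⟩ := P56H56.ndvd hp hpQ hν2 h32
  have hQd : Q = p ^ (f * (s + 1)) := by rw [hQ, hq, ← pow_mul]
  have hd1 : 1 ≤ f * (s + 1) := Nat.mul_pos hf (by omega)
  rw [← hν] at hgeA ⊢
  have hcM : 1 ≤ Nat.card M := Nat.card_pos
  have hτM : 1 ≤ τ * Nat.card M := Nat.mul_pos hτ hcM
  have hlt : P.ord z < 0 := by
    rw [hoz]
    omega
  have hz0 : z ≠ 0 := by
    intro h0
    rw [h0, zero_pow (by omega), sub_zero, zero_add] at hge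
    have := (P.ge_iff hh _).1 hge
    omega
  obtain ⟨A, hA⟩ : ∃ A, A = z ^ Q - z := ⟨_, rfl⟩
  obtain ⟨hA0, hoA⟩ := ord_as P (by omega : 2 ≤ Q) hz0 hlt
  rw [← hA] at hA0 hoA hge
  have hoh : P.ord h = Q * P.ord z := by
    have h1 : P.Ge (-(A + h)) (P.ord h + 1) := P.ge_mono (P.ge_neg hge) (by omega)
    have h2 := (P.ord_add_of_lt hh h1).2
    have h3 : h + -(A + h) = -A := by ring
    rw [h3, P.ord_neg, hoA] at h2
    exact h2.symm
  have hot : P.ord t = ((Q : ℤ) - 1) * (Q * P.ord z) := by rw [← hord, hoh]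
  have hQ3' : (3 : ℤ) ≤ Q := by exact_mod_cast hQ3
  have hohA : P.ord A = P.ord h := by rw [hoA, hoh]
  have hhneg : P.ord h < 0 := by rw [hoh]; nlinarith
  -- the estimate of `Y 0 / X 0 ^ q`
  obtain ⟨α', hα'⟩ : ∃ α' : k, α' = α * (-1) ^ ν := ⟨_, rfl⟩
  have hα'0 : α' ≠ 0 := by
    rw [hα']
    exact mul_ne_zero hα (pow_ne_zero _ (neg_ne_zero.2 one_ne_zero))
  obtain ⟨E1, hE1⟩ : ∃ E1, E1 = Y 0 / X 0 ^ q - algebraMap k L α' * A ^ ν := ⟨_, rfl⟩
  have hgE1 : P.Ge E1 ((ν : ℤ) * P.ord h - P.ord t) := by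
    have e1 : E1 = (Y 0 / X 0 ^ q - algebraMap k L α * h ^ ν) +
        algebraMap k L α * (h ^ ν - (-A) ^ ν) := by
      rw [hE1, hα', map_mul, map_pow, map_neg, map_one, neg_pow A ν]
      ring
    rw [e1]
    refine P.ge_add hgeA ?_
    have h1 := ge_pow_sub P (P.ge_ord h) (y := -A) (o := P.ord h) (e := P.ord h - P.ord t)
      (by rw [← hohA]; exact P.ge_neg (P.ge_ord A))
      (by
        have : h - -A = A + h := by ring
        rw [this]; exact hge) ν (by omega)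
    have h2 := P.ge_mul (P.ge_const α) h1
    exact P.ge_mono h2 (le_of_eq (by ring))
  have hYX : Y 0 / X 0 ^ q = algebraMap k L α' * A ^ ν + E1 := by rw [hE1]; ring
  -- the coordinates
  obtain ⟨Z, hZ⟩ : ∃ Z : Fin (s + 2) → L, Z = fun i => X i.succ / X 0 := ⟨_, rfl⟩
  have hX0q : X 0 ^ q = X 0 ^ (q - 1) * X 0 := by
    rw [← pow_succ]
    congr 1
    omega
  have hX0q1 : X 0 ^ (q - 1) ≠ 0 := pow_ne_zero _ hX0
  have hdiv : ∀ y : L, (y / X 0) ^ q - y / X 0 = (y ^ q - X 0 ^ (q - 1) * y) / X 0 ^ q := by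
    intro y
    rw [div_pow, sub_div, hX0q, mul_div_mul_left _ _ hX0q1]
  have hZl : ∀ l : Fin (s + 1), Z (Fin.castSucc l) ^ q - Z (Fin.castSucc l) =
      (Y 0 / X 0 ^ q) * (Y l / Y 0) := by
    intro l
    have h1 : (Fin.castSucc l).succ = mi s l := by
      apply Fin.ext
      simp [mi]
    rw [hZ]
    simp only
    rw [h1, hdiv, ← hPY.y l]
    field_simp
  have hZt : Z (Fin.last (s + 1)) ^ q - Z (Fin.last (s + 1)) = (z + h) * (Y 0 / X 0 ^ q) := by
    have h1 : (z + h) * (Y 0 / X 0 ^ q) = Yt / X 0 ^ q := by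
      rw [hz]
      field_simp
      ring
    rw [h1, hZ, hPY.yt]
    exact hdiv (X (Fin.last (s + 2)))
  -- the action of `M`
  have hMW : ∀ g ∈ M, g ∈ W ∧ ∀ l, g.1.1 (mi s l) (Fin.last (s + 2)) = 0 := fun g hg =>
    (hM g).1 hg
  have hMram : ∀ g ∈ M, g ∈ ram P ρ 1 := by
    intro g hg
    rw [← hW]
    exact (hMW g hg).1
  have hrow : ∀ g ∈ M, g.1.1 0 0 = 1 ∧ ∀ i j, i ≠ 0 → g.1.1 i j = if i = j then 1 else 0 := by
    intro g hg
    obtain ⟨u1, u2, u3⟩ := hun g (hMram g hg)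
    refine ⟨u1, fun i j hi => ?_⟩
    by_cases hj : j = Fin.last (s + 2)
    · by_cases hil : i = Fin.last (s + 2)
      · rw [hil]
        exact u3 j
      · have h1 := (hMW g hg).2 ⟨i.val - 1, by
          have h2 : i.val ≠ 0 := fun h => hi (Fin.ext h)
          have h3 : i.val ≠ s + 2 := fun h => hil (Fin.ext h)
          have h4 := i.isLt
          omega⟩
        have h5 : mi s ⟨i.val - 1, by
          have h2 : i.val ≠ 0 := fun h => hi (Fin.ext h)
          have h3 : i.val ≠ s + 2 := fun h => hil (Fin.ext h)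
          have h4 := i.isLt
          omega⟩ = i := by
          apply Fin.ext
          have h2 : i.val ≠ 0 := fun h => hi (Fin.ext h)
          simp only [mi]
          omega
        rw [h5] at h1
        rw [hj, h1, if_neg hil]
    · exact u2 i j hj hi
  have c1 : cst k F L 1 = 1 := by rw [cst, map_one, map_one]
  have c0 : cst k F L 0 = 0 := by rw [cst, map_zero, map_zero]
  have act0 : ∀ g ∈ M, ρ g (X 0) = X 0 := by
    intro g hg
    obtain ⟨r1, r2⟩ := hrow g hg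
    rw [hC.act g 0, Fin.sum_univ_succ, r1, c1, one_mul]
    have h1 : ∑ i : Fin (s + 2), cst k F L (g.1.1 i.succ 0) * X i.succ = 0 := by
      refine Finset.sum_eq_zero fun i _ => ?_
      rw [r2 _ _ (Fin.succ_ne_zero i), if_neg (Fin.succ_ne_zero i), c0, zero_mul]
    rw [h1, add_zero]
  have act1 : ∀ g ∈ M, ∀ i : Fin (s + 2), ρ g (X i.succ) =
      cst k F L (g.1.1 0 i.succ) * X 0 + X i.succ := by
    intro g hg i
    obtain ⟨r1, r2⟩ := hrow g hg
    rw [hC.act g i.succ, Fin.sum_univ_succ]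
    congr 1
    rw [Finset.sum_eq_single i]
    · rw [r2 _ _ (Fin.succ_ne_zero i), if_pos rfl, c1, one_mul]
    · intro j _ hj
      rw [r2 _ _ (Fin.succ_ne_zero j), if_neg, c0, zero_mul]
      exact fun h => hj (Fin.succ_injective _ h)
    · intro h
      exact absurd (Finset.mem_univ i) h
  have hcq : ∀ c : F, cst k F L c ^ q = cst k F L c := by
    intro c
    have h1 : c ^ q = c := by
      rw [← hF, Nat.card_eq_fintype_card]
      exact FiniteField.pow_card c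
    rw [cst, ← map_pow, ← map_pow, h1]
  have hqchar : ∀ a b : L, (a + b) ^ q = a ^ q + b ^ q := by
    intro a b
    have hfact : Fact p.Prime := ⟨hp⟩
    have hcL : CharP L p := charP_of_injective_algebraMap (algebraMap k L).injective p
    rw [hq]
    exact add_pow_char_pow a b p f
  have hM1 : ∀ g ∈ M, ∀ i : Fin (s + 2), ρ g (X i.succ ^ q - X 0 ^ (q - 1) * X i.succ) =
      X i.succ ^ q - X 0 ^ (q - 1) * X i.succ := by
    intro g hg i
    rw [map_sub, map_mul, map_pow, map_pow, act0 g hg, act1 g hg i, hqchar, mul_pow, hcq, hX0q]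
    ring
  have hfixz : ∀ g ∈ M, ρ g z = z := by
    intro g hg
    have h1 : ρ g (Y 0) = Y 0 := by
      have h2 : (0 : Fin (s + 2)).succ = mi s 0 := by
        apply Fin.ext
        simp [mi]
      rw [hPY.y 0, ← h2]
      exact hM1 g hg 0
    have h3 : ρ g Yt = Yt := by
      rw [hPY.yt, ← Fin.succ_last]
      exact hM1 g hg (Fin.last (s + 1))
    rw [hz, map_sub, map_div₀, h1, h3, hρh g (hMram g hg)]
  have hfix : ∀ r : Polynomial k, ∀ w ∈ M, ρ w (aeval z r) = aeval z r := by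
    intro r w hw
    have h2 : ρ w (aeval z r) = aeval (ρ w z) r :=
      (Polynomial.aeval_algHom_apply (ρ w : L ≃ₐ[k] L).toAlgHom z r).symm
    rw [h2, hfixz w hw]
  have haev : ∀ n : ℕ, aeval z ((Polynomial.X ^ Q - Polynomial.X : Polynomial k) ^ n) = A ^ n := by
    intro n
    rw [map_pow, map_sub, map_pow, aeval_X, ← hA]
  -- the orders
  have hmain : ∀ a : Fin (s + 2) → F, a ≠ 0 → ∃ Dd : ℕ, 1 ≤ Dd ∧ ¬ p ∣ Dd ∧
      Dd ≤ (Q * (ν - 1) + 2) * τ ∧ (a (Fin.last (s + 1)) ≠ 0 → Dd = (Q * (ν - 1) + 2) * τ) ∧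
      ∃ g : L, (∀ w ∈ M, ρ w g = g) ∧
        (∑ i, cst k F L (a i) * (Z i ^ q - Z i) - (g ^ p - g)) ≠ 0 ∧
        P.ord (∑ i, cst k F L (a i) * (Z i ^ q - Z i) - (g ^ p - g)) =
          -((Dd * Nat.card M : ℕ) : ℤ) := by
    intro a ha
    obtain ⟨Θ, hΘ⟩ : ∃ Θ : k, Θ = ∑ l : Fin (s + 1), algebraMap F k (a (Fin.castSucc l)) * θ l :=
      ⟨_, rfl⟩
    obtain ⟨E3, hE3⟩ : ∃ E3 : L, E3 = ∑ l : Fin (s + 1), cst k F L (a (Fin.castSucc l)) *
      (Y l / Y 0 - algebraMap k L (θ l)) := ⟨_, rfl⟩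
    have hgE3 : P.Ge E3 (-P.ord t) := by
      rw [hE3]
      refine P.ge_sum _ _ _ fun l _ => ?_
      have h1 := P.ge_mul (P.ge_const (algebraMap F k (a (Fin.castSucc l)))) (hgeY l)
      exact P.ge_mono h1 (by linarith)
    have hsum : ∑ i, cst k F L (a i) * (Z i ^ q - Z i) =
        (algebraMap k L α' * A ^ ν + E1) * (algebraMap k L Θ + E3) +
        cst k F L (a (Fin.last (s + 1))) * ((z + h) * (algebraMap k L α' * A ^ ν + E1)) := by
      rw [Fin.sum_univ_castSucc, hZt, hYX]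
      congr 1
      rw [hΘ, hE3, map_sum, ← Finset.sum_add_distrib, Finset.mul_sum]
      refine Finset.sum_congr rfl fun l _ => ?_
      rw [hZl, hYX, map_mul, cst]
      ring
    have hcast : ((ν : ℤ)) = (ν - 1 : ℕ) + 1 := by omega
    have ho1 : P.ord z ≤ -1 := by omega
    -- error terms
    have hAν : P.Ge (A ^ ν) ((ν : ℤ) * P.ord h) := by
      have := ge_pow P (P.ge_ord A) ν
      rwa [hohA] at this
    have hg0 : P.Ge (E1 * (algebraMap k L Θ + E3) + algebraMap k L α' * A ^ ν * E3)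
        ((ν : ℤ) * P.ord h - P.ord t) := by
      have hot0 : P.ord t < 0 := ht
      have g1 := P.ge_mul hgE1 (P.ge_add (P.ge_const Θ) (P.ge_mono hgE3 (by linarith : (0 : ℤ) ≤ _)))
      have g2 := P.ge_mul (P.ge_mul (P.ge_const α') hAν) hgE3
      exact P.ge_add (P.ge_mono g1 (by linarith)) (P.ge_mono g2 (by linarith))
    by_cases ha1 : a (Fin.last (s + 1)) = 0
    · have hΘ0 : Θ ≠ 0 := by
        intro h0
        apply ha
        have h1 := hθ (fun l => a (Fin.castSucc l)) (by rw [← hΘ, h0])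
        funext i
        refine Fin.lastCases ha1 (fun l => ?_) i
        exact congrFun h1 l
      have hb0 : Θ * α' ≠ 0 := mul_ne_zero hΘ0 hα'0
      obtain ⟨D, r, hD1, hD2, hpD, hdeg⟩ := P56H56.red1 h_xt1 h_xt2 h_xrd hp hp2 hd1 hQd hν4 hν2
        h32 _ hb0
      refine ⟨D * τ, Nat.mul_pos (by omega) hτ, fun hd => ?_, Nat.mul_le_mul_right _ hD2,
        fun h1 => absurd ha1 h1, aeval z r, hfix r, ?_⟩
      · rcases hp.dvd_mul.1 hd with h1 | h1
        · exact hpD h1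
        · exact hpτ h1
      · have key := ord_tot P hz0 hlt hdeg (by omega)
          (E := E1 * (algebraMap k L Θ + E3) + algebraMap k L α' * A ^ ν * E3)
          (Sm := ∑ i, cst k F L (a i) * (Z i ^ q - Z i)) ?_ ?_
        · refine ⟨key.1, ?_⟩
          rw [key.2, hoz]
          push_cast
          ring
        · rw [hsum, ha1, c0, map_mul, aeval_C, haev, map_mul]
          ring
        · refine P.ge_mono hg0 ?_
          rw [hot, hoh]
          have hD1' : (Q : ℤ) * (ν - 1 : ℕ) + 1 ≤ D := by exact_mod_cast hD1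
          rw [hcast]
          nlinarith [mul_nonneg (by linarith : (0 : ℤ) ≤ -P.ord z)
            (by nlinarith : (0 : ℤ) ≤ (D : ℤ) - (Q * (ν - 1 : ℕ) + 1)),
            mul_nonneg (by linarith : (0 : ℤ) ≤ -P.ord z)
            (by nlinarith : (0 : ℤ) ≤ (Q : ℤ) * (Q - 2))]
    · have hb1 : algebraMap F k (a (Fin.last (s + 1))) * α' ≠ 0 :=
        mul_ne_zero (by rwa [Ne, map_eq_zero]) hα'0
      obtain ⟨r, hdeg⟩ := P56H56.red2 h_xt2 hp hp2 hd1 hQd hν4 hν2 h32 (Θ * α') _ hb1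
      refine ⟨(Q * (ν - 1) + 2) * τ, Nat.mul_pos (by omega) hτ, fun hd => ?_, le_rfl,
        fun _ => rfl, aeval z r, hfix r, ?_⟩
      · rcases hp.dvd_mul.1 hd with h1 | h1
        · exact n3 h1
        · exact hpτ h1
      · have key := ord_tot P hz0 hlt hdeg (by omega)
          (E := (E1 * (algebraMap k L Θ + E3) + algebraMap k L α' * A ^ ν * E3) +
          cst k F L (a (Fin.last (s + 1))) * ((z + h) * E1 +
            (A + h) * (algebraMap k L α' * A ^ ν)))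
          (Sm := ∑ i, cst k F L (a i) * (Z i ^ q - Z i)) ?_ ?_
        · refine ⟨key.1, ?_⟩
          rw [key.2, hoz]
          push_cast
          ring
        · rw [hsum]
          simp only [map_add, map_mul, map_sub, aeval_C, haev, aeval_X, cst]
          ring
        · have hgz : P.Ge z (P.ord h) := Or.inr (by rw [hoh]; nlinarith)
          have g2 := P.ge_mul (P.ge_add hgz (P.ge_ord h)) hgE1
          have g3 := P.ge_mul hge (P.ge_mul (P.ge_const α') hAν)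
          have g1' : P.Ge (E1 * (algebraMap k L Θ + E3) + algebraMap k L α' * A ^ ν * E3)
              (((ν : ℤ) + 1) * P.ord h - P.ord t) := P.ge_mono hg0 (by linarith)
          have g2' : P.Ge ((z + h) * E1) (((ν : ℤ) + 1) * P.ord h - P.ord t) :=
            P.ge_mono g2 (by linarith)
          have g3' : P.Ge ((A + h) * (algebraMap k L α' * A ^ ν))
              (((ν : ℤ) + 1) * P.ord h - P.ord t) := P.ge_mono g3 (by linarith)
          have g4 := P.ge_mul (P.ge_const (algebraMap F k (a (Fin.last (s + 1)))))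
            (P.ge_add g2' g3')
          rw [zero_add] at g4
          refine P.ge_mono (P.ge_add g1' g4) ?_
          rw [hot, hoh, hcast]
          push_cast
          nlinarith [mul_nonneg (by linarith : (0 : ℤ) ≤ -P.ord z)
            (by nlinarith : (0 : ℤ) ≤ (Q : ℤ) * (Q - 3))]
  choose! Da hDa using hmain
  obtain ⟨hc1, hc2, -, hc4⟩ := h_umr p k F L G₀ f q (s + 2) ((Q * (ν - 1) + 2) * τ) P ρ M ⊥
    (fun g => fun i => g.1.1 0 i.succ) Z Da hp hchar hf hq hF (by omega) hC.cov.inj hMram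
    bot_le
    (by
      intro g hg
      obtain ⟨r1, r2⟩ := hrow g hg
      constructor
      · intro h1
        rw [Subgroup.mem_bot] at h1
        rw [h1]
        funext i
        show (1 : Matrix (Fin (s + 3)) (Fin (s + 3)) F) 0 i.succ = 0
        rw [Matrix.one_apply_ne (Fin.succ_ne_zero i).symm]
      · intro h1
        rw [Subgroup.mem_bot]
        refine Subtype.ext (Matrix.SpecialLinearGroup.ext _ _ fun i j => ?_)
        show g.1.1 i j = (1 : Matrix (Fin (s + 3)) (Fin (s + 3)) F) i j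
        rw [Matrix.one_apply]
        by_cases hi : i = 0
        · subst hi
          refine Fin.cases ?_ (fun l => ?_) j
          · rw [r1, if_pos rfl]
          · rw [if_neg (Fin.succ_ne_zero l).symm]
            exact congrFun h1 l
        · exact r2 i j hi)
    (by
      intro g hg g' hg'
      obtain ⟨r1, r2⟩ := hrow g hg
      obtain ⟨r1', r2'⟩ := hrow g' hg'
      funext i
      show (g * g').1.1 0 i.succ = g.1.1 0 i.succ + g'.1.1 0 i.succ
      rw [Subgroup.coe_mul, Matrix.SpecialLinearGroup.coe_mul, Matrix.mul_apply,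
        Fin.sum_univ_succ, r1, one_mul, add_comm]
      congr 1
      rw [Finset.sum_eq_single i]
      · rw [r2' _ _ (Fin.succ_ne_zero i), if_pos rfl, mul_one]
      · intro j _ hj
        rw [r2' _ _ (Fin.succ_ne_zero j), if_neg, mul_zero]
        exact fun h => hj (Fin.succ_injective _ h)
      · intro h
        exact absurd (Finset.mem_univ i) h)
    (by
      intro g hg i
      rw [hZ]
      simp only
      rw [map_div₀, act0 g hg, act1 g hg i]
      field_simp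
      ring)
    (by
      intro a ha
      obtain ⟨h1, h2, h3, -, h5⟩ := hDa a ha
      exact ⟨h1, h2, h3, h5⟩)
  have hbot : Nat.card (⊥ : Subgroup G₀) = 1 := Subgroup.card_bot
  refine ⟨by rw [hc1, hbot, mul_one], fun v => ?_, ?_⟩
  · obtain ⟨g, hg, hg'⟩ := hc2 v
    exact ⟨g, hg, fun i => congrFun hg' i⟩
  · obtain ⟨a₀, ha₀⟩ : ∃ a₀ : Fin (s + 2) → F, a₀ = Pi.single (Fin.last (s + 1)) 1 := ⟨_, rfl⟩
    have h1 : a₀ (Fin.last (s + 1)) ≠ 0 := by
      rw [ha₀, Pi.single_eq_same]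
      exact one_ne_zero
    have hne : a₀ ≠ 0 := fun h0 => h1 (congrFun h0 _)
    exact hc4 rfl ⟨a₀, hne, (hDa _ hne).2.2.2.1 h1⟩

end Pool.CND
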