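import Pool.Agent.H37.CTO.Stmts
import Pool.Agent.H56.CTL.T56

/-!
# Board `cto`, row P5E
-/

set_option autoImplicit false

namespace Pool.CND

open Finset

namespace P5EH56

open T56H56

variable {k L : Type} [Field k] [Field L] [Algebra k L] (P : Place k L)

theorem ge_one_mul {x y : L} {e : ℤ} (he : 0 ≤ e) (hx : P.Ge (x - 1) e) (hy : P.Ge (y - 1) e) :
    P.Ge (x * y - 1) e := by
  have h1 : P.Ge y 0 := by
    have h2 : y = (y - 1) + 1 := by ring
    rw [h2]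
    exact P.ge_add (P.ge_mono hy he) (Or.inr (by rw [P.ord_one]))
  have h3 : x * y - 1 = (x - 1) * y + (y - 1) := by ring
  rw [h3]
  exact P.ge_add (P.ge_mono (P.ge_mul hx h1) (by linarith)) hy

theorem ge_one_pow {x : L} {e : ℤ} (he : 0 ≤ e) (hx : P.Ge (x - 1) e) (n : ℕ) :
    P.Ge (x ^ n - 1) e := by
  induction n with
  | zero => exact Or.inl (by rw [pow_zero, sub_self])
  | succ n ih =>
    rw [pow_succ]
    exact ge_one_mul P he ih hx

theorem ord_of_ge_one {x : L} {e : ℤ} (he : 1 ≤ e) (hx : P.Ge (x - 1) e) :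
    x ≠ 0 ∧ P.ord x = 0 := by
  have h1 := P.ord_add_of_lt (x := 1) (y := x - 1) one_ne_zero
    (P.ge_mono hx (by rw [P.ord_one]; linarith))
  have h2 : (1 : L) + (x - 1) = x := by ring
  rw [h2, P.ord_one] at h1
  exact h1

theorem ge_one_inv {x : L} {e : ℤ} (he : 1 ≤ e) (hx : P.Ge (x - 1) e) : P.Ge (x⁻¹ - 1) e := by
  obtain ⟨h0, h1⟩ := ord_of_ge_one P he hx
  have h2 : x⁻¹ - 1 = -((x - 1) * x⁻¹) := by
    rw [sub_mul, mul_inv_cancel₀ h0, one_mul]
    ring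
  rw [h2]
  have h3 : P.Ge x⁻¹ 0 := Or.inr (by rw [P.ord_inv h0, h1]; simp)
  have := P.ge_mul hx h3
  rw [add_zero] at this
  exact P.ge_neg this

/-- roots: if `g ^ N` is near to a constant, so is `g` -/
theorem root_est {g : L} {c : k} {N : ℕ} {e : ℤ} (hN : (N : k) ≠ 0) (hc : c ≠ 0) (he : 1 ≤ e)
    (hg : P.Ge (g ^ N - algebraMap k L c) e) :
    ∃ α : k, α ≠ 0 ∧ P.Ge (g - algebraMap k L α) e := by
  have hN0 : N ≠ 0 := by
    rintro rfl
    exact hN (by simp)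
  have hcL : algebraMap k L c ≠ 0 := by rwa [Ne, map_eq_zero]
  have h1 := P.ord_add_of_lt hcL (y := g ^ N - algebraMap k L c)
    (P.ge_mono hg (by rw [P.ord_const c hc]; linarith))
  have h2 : algebraMap k L c + (g ^ N - algebraMap k L c) = g ^ N := by ring
  rw [h2, P.ord_const c hc] at h1
  have hg0 : g ≠ 0 := fun h => h1.1 (by rw [h, zero_pow hN0])
  have hog : P.ord g = 0 := by
    have h3 := h1.2
    rw [P.ord_pow hg0] at h3
    rcases mul_eq_zero.1 h3 with h4 | h4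
    · exact absurd (by exact_mod_cast h4) hN0
    · exact h4
  obtain ⟨α, hα⟩ := P.residue g hg0 hog.ge
  have hd : P.Ge (g - algebraMap k L α) 1 := by
    rcases hα with h | h
    · exact Or.inl (by rw [h, sub_self])
    · exact Or.inr h
  have hα0 : α ≠ 0 := by
    rintro rfl
    rw [map_zero, sub_zero] at hd
    have := (P.ge_iff hg0 1).1 hd
    omega
  refine ⟨α, hα0, ?_⟩
  obtain ⟨S, hS⟩ : ∃ S, S = ∑ i ∈ range N, g ^ i * algebraMap k L α ^ (N - 1 - i) := ⟨_, rfl⟩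
  have hmul : g ^ N - algebraMap k L α ^ N = S * (g - algebraMap k L α) := by
    rw [hS]
    exact ((Commute.all _ _).geom_sum₂_mul N).symm
  have hSN : P.Ge (S - algebraMap k L ((N : k) * α ^ (N - 1))) 1 := by
    have h3 : S - algebraMap k L ((N : k) * α ^ (N - 1)) = ∑ i ∈ range N,
        (g ^ i - algebraMap k L α ^ i) * algebraMap k L α ^ (N - 1 - i) := by
      rw [hS, map_mul, map_natCast, map_pow]
      have h4 : (N : L) * algebraMap k L α ^ (N - 1) =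
          ∑ i ∈ range N, algebraMap k L α ^ i * algebraMap k L α ^ (N - 1 - i) := by
        rw [Finset.sum_congr rfl (g := fun _ => algebraMap k L α ^ (N - 1))]
        · simp
        · intro i hi
          rw [← pow_add]
          congr 1
          have := Finset.mem_range.1 hi
          omega
      rw [h4, ← Finset.sum_sub_distrib]
      exact Finset.sum_congr rfl fun i _ => by ring
    rw [h3]
    refine P.ge_sum _ _ _ fun i _ => ?_
    have h4 : P.Ge (g ^ i - algebraMap k L α ^ i) 1 := by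
      by_cases hi : i = 0
      · exact Or.inl (by rw [hi]; simp)
      · have := ge_pow_sub P (o := 0) (e := 1) (x := g) (y := algebraMap k L α)
          (Or.inr hog.ge) (P.ge_const α) hd i (by omega)
        exact P.ge_mono this (by simp)
    have h5 : P.Ge (algebraMap k L α ^ (N - 1 - i)) 0 := by
      rw [← map_pow]
      exact P.ge_const _
    have := P.ge_mul h4 h5
    rwa [add_zero] at this
  have hNα : (N : k) * α ^ (N - 1) ≠ 0 := mul_ne_zero hN (pow_ne_zero _ hα0)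
  have hNαL : algebraMap k L ((N : k) * α ^ (N - 1)) ≠ 0 := by rwa [Ne, map_eq_zero]
  have h6 := P.ord_add_of_lt hNαL (y := S - algebraMap k L ((N : k) * α ^ (N - 1)))
    (P.ge_mono hSN (by rw [P.ord_const _ hNα]; omega))
  have h7 : algebraMap k L ((N : k) * α ^ (N - 1)) +
    (S - algebraMap k L ((N : k) * α ^ (N - 1))) = S := by ring
  rw [h7, P.ord_const _ hNα] at h6
  have hcα : c = α ^ N := by
    by_contra hne
    have hne' : c - α ^ N ≠ 0 := sub_ne_zero.2 hne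
    have h8 : P.Ge (algebraMap k L (c - α ^ N)) 1 := by
      have h9 : algebraMap k L (c - α ^ N) =
          -(g ^ N - algebraMap k L c) + S * (g - algebraMap k L α) := by
        rw [← hmul, map_sub, map_pow]
        ring
      rw [h9]
      refine P.ge_add (P.ge_neg (P.ge_mono hg he)) ?_
      have := P.ge_mul (P.ge_ord S) hd
      exact P.ge_mono this (by rw [h6.2]; omega)
    have h10 := (P.ge_iff (by rwa [Ne, map_eq_zero]) 1).1 h8
    rw [P.ord_const _ hne'] at h10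
    omega
  have h11 : g - algebraMap k L α = (g ^ N - algebraMap k L c) * S⁻¹ := by
    rw [hcα, map_pow, hmul, mul_comm S, mul_assoc, mul_inv_cancel₀ h6.1, mul_one]
  rw [h11]
  have h12 : P.Ge S⁻¹ 0 := Or.inr (by rw [P.ord_inv h6.1, h6.2]; simp)
  have := P.ge_mul hg h12
  rwa [add_zero] at this

/-- the error terms -/
theorem ge_B {q s Q : ℕ} {T : ℤ} {x ξ : L} {r : ℕ → L} (hT : T < 0) (hq : 3 ≤ q) (hQ3 : 3 ≤ Q)
    (hx : P.Ge x T) (hξ : P.Ge ξ (-(((q : ℤ) * Q - 2) * T)))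
    (hr0 : P.Ge (r 0) (-(((q : ℤ) - 1) * Q * T)))
    (hr : ∀ j ≤ s, P.Ge (r (j + 1)) (((Q : ℤ) - 2 * q ^ j) * T)) :
    P.Ge (ξ ^ Q * x ^ Q + r 0 * x + ∑ j ∈ range (s + 1), r (j + 1) * (ξ ^ q ^ j * x ^ q ^ j))
      (((Q : ℤ) - 3) * T) := by
  have hq' : (3 : ℤ) ≤ q := by exact_mod_cast hq
  have hQ' : (3 : ℤ) ≤ Q := by exact_mod_cast hQ3
  have hqQ : (9 : ℤ) ≤ q * Q := by nlinarith
  refine P.ge_add (P.ge_add ?_ ?_) (P.ge_sum _ _ _ fun j hj => ?_)
  · refine P.ge_mono (P.ge_mul (ge_pow P hξ Q) (ge_pow P hx Q)) ?_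
    have h1 : 0 ≤ (-T) * (Q * (q * Q - 2) - 3) :=
      mul_nonneg (by linarith) (by nlinarith)
    have h2 : (Q : ℤ) * -((q * Q - 2) * T) + Q * T - (Q - 3) * T =
      (-T) * (Q * (q * Q - 2) - 3) := by ring
    linarith
  · refine P.ge_mono (P.ge_mul hr0 hx) ?_
    have h1 : 0 ≤ (-T) * ((q : ℤ) * Q - 4) := mul_nonneg (by linarith) (by linarith)
    have h2 : -(((q : ℤ) - 1) * Q * T) + T - (Q - 3) * T = (-T) * (q * Q - 4) := by ring
    linarith
  · have hj' : j ≤ s := by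
      have := Finset.mem_range.1 hj
      omega
    refine P.ge_mono (P.ge_mul (hr j hj') (P.ge_mul (ge_pow P hξ (q ^ j))
      (ge_pow P hx (q ^ j)))) ?_
    have hw : (1 : ℤ) ≤ (q : ℤ) ^ j := one_le_pow₀ (by linarith)
    have h1 : 0 ≤ (-T) * ((q : ℤ) ^ j * (q * Q) - q ^ j - 3) :=
      mul_nonneg (by linarith) (by nlinarith)
    have h2 : ((Q : ℤ) - 2 * q ^ j) * T + (((q ^ j : ℕ) : ℤ) * -((q * Q - 2) * T) +
        ((q ^ j : ℕ) : ℤ) * T) - (Q - 3) * T = (-T) * (q ^ j * (q * Q) - q ^ j - 3) := by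
      push_cast
      ring
    linarith

/-- `R(x)` in terms of `M_1(x)` -/
theorem expand {p f q s Q : ℕ} [CharP L p] (hp : p.Prime) (hq : q = p ^ f) (hQ : Q = q ^ (s + 1))
    {x ξ M : L} {r : ℕ → L} (hM : M = x ^ q - ξ * x) :
    x ^ q ^ (s + 2) + ∑ j ∈ range (s + 2), r j * x ^ q ^ j =
      M ^ Q + r 1 * M + ∑ j ∈ range s, r (j + 2) * M ^ q ^ (j + 1) +
        (ξ ^ Q * x ^ Q + r 0 * x + ∑ j ∈ range (s + 1), r (j + 1) * (ξ ^ q ^ j * x ^ q ^ j)) := by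
  have hfact : Fact p.Prime := ⟨hp⟩
  have key : ∀ j, x ^ q ^ (j + 1) = M ^ q ^ j + ξ ^ q ^ j * x ^ q ^ j := by
    intro j
    have h1 : x ^ q = M + ξ * x := by rw [hM]; ring
    have h2 : q ^ j = p ^ (f * j) := by rw [hq, ← pow_mul]
    rw [pow_succ' q j, pow_mul, h1, h2, add_pow_char_pow, mul_pow]
  have h3 : ∑ j ∈ range (s + 2), r j * x ^ q ^ j =
      ∑ j ∈ range (s + 1), (r (j + 1) * M ^ q ^ j + r (j + 1) * (ξ ^ q ^ j * x ^ q ^ j)) +
        r 0 * x := by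
    rw [Finset.sum_range_succ', pow_zero, pow_one]
    congr 1
    exact Finset.sum_congr rfl fun j _ => by rw [key]; ring
  have h4 : ∑ j ∈ range (s + 1), r (j + 1) * M ^ q ^ j =
      ∑ j ∈ range s, r (j + 2) * M ^ q ^ (j + 1) + r 1 * M := by
    rw [Finset.sum_range_succ', pow_zero, pow_one]
  rw [h3, Finset.sum_add_distrib, h4, key (s + 1), ← hQ]
  ring

end P5EH56

open T56H56 P5EH56 in
theorem p5e_thm (h53 : S_P53) (h54 : S_P54) (h5d : S_P5D) : S_P5E := by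
  intro p k F L _ _ _ _ _ _ _ f q s t X Y Yt Yp h z ζ P hp hp2 hchar hf hq hF hR hO hPY hζ hYp
    hh hz
  have := hchar
  obtain ⟨hX0, hYn0, hYp0, r, r1, r2, r3, r4, r5, r6⟩ := h53 p k F L f q s t X Y Yt Yp hp hp2
    hchar hf hq hF hR hPY
  obtain ⟨e1, e2, e3, hYt0, e4, -⟩ := h54 p k F L f q s t X Y Yt Yp P hp hp2 hchar hf hq hF hR hO
    hPY
  obtain ⟨o1, o2, o3, -⟩ := h5d p k F L f q s t X Y Yt Yp P r hp hp2 hchar hf hq hF hR hO hPY r1
    r2 r3 r4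
  have hcL : CharP L p := charP_of_injective_algebraMap (algebraMap k L).injective p
  have hfact : Fact p.Prime := ⟨hp⟩
  obtain ⟨Q, hQ⟩ : ∃ Q, Q = q ^ (s + 1) := ⟨_, rfl⟩
  obtain ⟨T, hTt⟩ : ∃ T, T = P.ord t := ⟨_, rfl⟩
  -- arithmetic
  have hp3 : 3 ≤ p := by
    have := hp.two_le
    omega
  have hpq : p ∣ q := by
    rw [hq]
    exact dvd_pow_self p (by omega)
  have hq0 : 0 < q := by rw [hq]; exact pow_pos hp.pos f
  have hq3 : 3 ≤ q := hp3.trans (Nat.le_of_dvd hq0 hpq)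
  have hQ3 : 3 ≤ Q := by rw [hQ]; exact hq3.trans (Nat.le_self_pow (by omega) q)
  have hpQ : p ∣ Q := by rw [hQ]; exact dvd_pow hpq (by omega)
  have hqQ : q ^ (s + 2) = q * Q := by rw [hQ]; ring
  have hQc : ((q : ℤ)) ^ (s + 1) = (Q : ℤ) := by rw [hQ]; push_cast; rfl
  have hqQc : ((q : ℤ)) ^ (s + 2) = (q : ℤ) * Q := by rw [← hQc]; ring
  have hq' : (3 : ℤ) ≤ q := by exact_mod_cast hq3
  have hQ' : (3 : ℤ) ≤ Q := by exact_mod_cast hQ3
  have hT : T < 0 := by rw [hTt]; exact hO.neg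
  have ht0 : t ≠ 0 := fun h0 => hR.tr (by rw [h0]; exact isAlgebraic_zero)
  have hζ0 : ζ ≠ 0 := by
    intro h0
    rw [h0, zero_pow (by omega)] at hζ
    exact zero_ne_one hζ
  have hζL : algebraMap k L ζ ≠ 0 := by rwa [Ne, map_eq_zero]
  have hY0 : Y 0 ≠ 0 := hYn0 0
  obtain ⟨σ, hσ⟩ : ∃ σ, σ = ∑ i ∈ range (s + 1), q ^ i := ⟨_, rfl⟩
  have hσQ : (q - 1) * σ = Q - 1 := by
    have h1 : (σ : ℤ) * ((q : ℤ) - 1) = Q - 1 := by
      rw [← hQc, ← geom_sum_mul (q : ℤ) (s + 1), hσ]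
      push_cast
      rfl
    zify [hq0, (by omega : 1 ≤ Q), (by omega : 1 ≤ q)]
    linarith
  have hζQ1 : ζ ^ (Q - 1) = 1 := by rw [← hσQ, pow_mul, hζ, one_pow]
  have hζQ : algebraMap k L ζ ^ Q = algebraMap k L ζ := by
    have h1 : Q = (Q - 1) + 1 := by omega
    rw [h1, pow_succ, ← map_pow, hζQ1, map_one, one_mul]
  rw [← hQ] at hYp ⊢
  rw [hQc]
  rw [← hTt] at hYp ⊢
  have e1' : P.Ge (X 0 ^ (q - 1) * t ^ (q * Q - 2) + 1) (-T) := by
    rw [hTt, ← hqQ]; exact e1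
  have e2' : ((Q : ℤ) - 1) * P.ord (Y 0) = ((Q : ℤ) - 2) * T := by
    rw [hTt, ← hQc]; exact e2 0
  have e3' : P.Ge (Y 0 ^ (Q - 1) / t ^ (Q - 2) - 1) (-T) := by
    rw [hTt, hQ]; exact e3 0
  clear e1 e2 e3
  obtain ⟨A1, hA1⟩ : ∃ A1, A1 = Y 0 ^ (Q - 1) / t ^ (Q - 2) := ⟨_, rfl⟩
  rw [← hA1] at e3'
  have hT1 : 1 ≤ -T := by omega
  obtain ⟨hA10, hA1o⟩ := ord_of_ge_one P hT1 e3'
  -- `h`
  have hh0 : h ≠ 0 := by
    rw [hh]
    exact div_ne_zero (mul_ne_zero hζL ht0) hY0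
  obtain ⟨η, hη⟩ : ∃ η, η = P.ord h := ⟨_, rfl⟩
  have hηT : η = T - P.ord (Y 0) := by
    rw [hη, hh, P.ord_div (mul_ne_zero hζL ht0) hY0, P.ord_mul _ _ hζL ht0, P.ord_const _ hζ0,
      zero_add, hTt]
  have hηQ : ((Q : ℤ) - 1) * η = T := by
    rw [hηT]
    linarith
  have hη0 : η < 0 := by nlinarith
  have hηT' : T ≤ η := by nlinarith
  rw [← hη]
  have hhQ1 : h ^ (Q - 1) = t * A1⁻¹ := by
    have h1 : t ^ (Q - 1) = t * t ^ (Q - 2) := by
      rw [← pow_succ']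
      congr 1
      omega
    rw [hh, div_pow, mul_pow, ← map_pow, hζQ1, map_one, one_mul, h1, hA1, inv_div, mul_div_assoc]
  have hhQ : h ^ Q = h * (t * A1⁻¹) := by
    rw [← hhQ1, ← pow_succ']
    congr 1
    omega
  -- third part
  obtain ⟨ε, hε⟩ : ∃ ε, ε = Yp / (algebraMap k L ζ * t ^ Q) - 1 + 2 / t := ⟨_, rfl⟩
  rw [← hε] at hYp
  have c3 : P.Ge (Yp / Y 0 ^ Q - h ^ Q + 2 * h) (η - T) := by
    have h1 : Yp / Y 0 ^ Q = h ^ Q * (1 - 2 / t + ε) := by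
      have h2 : 1 - 2 / t + ε = Yp / (algebraMap k L ζ * t ^ Q) := by rw [hε]; ring
      rw [h2, hh, div_pow, mul_pow, hζQ]
      field_simp
    have h3 : Yp / Y 0 ^ Q - h ^ Q + 2 * h = -(algebraMap k L 2 * (h * (A1⁻¹ - 1))) +
        h ^ Q * ε := by
      rw [h1]
      have h4 : h ^ Q * (2 / t) = 2 * (h * A1⁻¹) := by
        rw [hhQ]
        field_simp
      rw [map_ofNat]
      linear_combination -h4
    rw [h3]
    refine P.ge_add (P.ge_neg ?_) ?_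
    · have h5 := P.ge_mul (P.ge_const (2 : k)) (P.ge_mul (P.ge_ord h) (ge_one_inv P hT1 e3'))
      rw [← hη] at h5
      exact P.ge_mono h5 (by linarith)
    · have h5 := P.ge_mul (ge_pow P (P.ge_ord h) Q) hYp
      rw [← hη] at h5
      exact P.ge_mono h5 (by linarith)
  -- fourth part
  have c4 : P.Ge (z ^ Q - z + h) (η - T) := by
    obtain ⟨ξ, hξ⟩ : ∃ ξ, ξ = X 0 ^ (q - 1) := ⟨_, rfl⟩
    have hoξ : P.Ge ξ (-(((q : ℤ) * Q - 2) * T)) := by
      refine Or.inr (le_of_eq ?_)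
      rw [hξ, P.ord_pow hX0, Nat.cast_sub (by omega), Nat.cast_one, hO.small, hqQc, hTt]
    have hr0 : P.Ge (r 0) (-(((q : ℤ) - 1) * Q * T)) := by
      refine Or.inr (le_of_eq ?_)
      rw [o2, hQc, hTt]
    have hr : ∀ j ≤ s, P.Ge (r (j + 1)) (((Q : ℤ) - 2 * q ^ j) * T) := by
      intro j hj
      refine Or.inr (le_of_eq ?_)
      rw [o3 (j + 1) (by omega) (by omega), hQc, hTt, Nat.add_sub_cancel]
    have hmi : mi s 0 ≠ Fin.last (s + 2) := by
      intro h0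
      have := congrArg Fin.val h0
      simp [mi] at this
    -- orders of `X (mi s 0)` and `X (last)`
    have hx1 : P.Ge (X (mi s 0)) T := by
      refine Or.inr ?_
      have h1 := hO.mid (Pi.single (mi s 0) 1)
        (by rw [Pi.single_eq_of_ne hmi.symm])
        ⟨mi s 0, by
          intro h0
          have := congrArg Fin.val h0
          simp [mi] at this, by rw [Pi.single_eq_same]; exact one_ne_zero⟩
      have h2 : ∑ i, cst k F L ((Pi.single (mi s 0) 1 : Fin (s + 3) → F) i) * X i =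
          X (mi s 0) := by
        rw [Finset.sum_eq_single (mi s 0)]
        · rw [Pi.single_eq_same, cst, map_one, map_one, one_mul]
        · intro i _ hi
          rw [Pi.single_eq_of_ne hi, cst, map_zero, map_zero, zero_mul]
        · intro h0
          exact absurd (Finset.mem_univ _) h0
      rw [h2, hQc, ← hTt] at h1
      have h3 : (0 : ℤ) < q * (Q - 1) := by nlinarith
      have h4 : ((q : ℤ) * (Q - 1)) * T ≤ (q * (Q - 1)) * P.ord (X (mi s 0)) := by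
        rw [h1]
        have h5 : 0 ≤ (-T) * ((q : ℤ) * (Q - 1) - (Q - 2)) :=
          mul_nonneg (by linarith) (by nlinarith)
        nlinarith
      exact le_of_mul_le_mul_left h4 h3
    have hx2 : P.Ge (X (Fin.last (s + 2))) T := by
      refine Or.inr ?_
      have h1 := hO.top (Pi.single (Fin.last (s + 2)) 1)
        (by rw [Pi.single_eq_same]; exact one_ne_zero)
      have h2 : ∑ i, cst k F L ((Pi.single (Fin.last (s + 2)) 1 : Fin (s + 3) → F) i) * X i =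
          X (Fin.last (s + 2)) := by
        rw [Finset.sum_eq_single (Fin.last (s + 2))]
        · rw [Pi.single_eq_same, cst, map_one, map_one, one_mul]
        · intro i _ hi
          rw [Pi.single_eq_of_ne hi, cst, map_zero, map_zero, zero_mul]
        · intro h0
          exact absurd (Finset.mem_univ _) h0
      rw [h2, ← hTt] at h1
      nlinarith
    have g1 := ge_B P (s := s) hT hq3 hQ3 hx1 hoξ hr0 hr
    have g2 := ge_B P (s := s) hT hq3 hQ3 hx2 hoξ hr0 hr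
    obtain ⟨B1, hB1⟩ : ∃ B1, B1 = (ξ ^ Q * X (mi s 0) ^ Q + r 0 * X (mi s 0) +
      ∑ j ∈ range (s + 1), r (j + 1) * (ξ ^ q ^ j * X (mi s 0) ^ q ^ j)) := ⟨_, rfl⟩
    obtain ⟨B2, hB2⟩ : ∃ B2, B2 = (ξ ^ Q * X (Fin.last (s + 2)) ^ Q +
      r 0 * X (Fin.last (s + 2)) +
      ∑ j ∈ range (s + 1), r (j + 1) * (ξ ^ q ^ j * X (Fin.last (s + 2)) ^ q ^ j)) := ⟨_, rfl⟩
    rw [← hB1] at g1
    rw [← hB2] at g2
    have x1 : Y 0 ^ Q + r 1 * Y 0 + ∑ j ∈ range s, r (j + 2) * Y 0 ^ q ^ (j + 1) + B1 = 0 := by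
      rw [← r5 (mi s 0) hmi, hB1]
      exact (expand hp hq hQ (by rw [hξ]; exact hPY.y 0)).symm
    have x2 : Yt ^ Q + r 1 * Yt + ∑ j ∈ range s, r (j + 2) * Yt ^ q ^ (j + 1) + B2 = Yp := by
      rw [← r6, hB2]
      exact (expand hp hq hQ (by rw [hξ]; exact hPY.yt)).symm
    obtain ⟨S1, hS1⟩ : ∃ S1, S1 = ∑ j ∈ range s, r (j + 2) * (Y 0 ^ (q ^ (j + 1) - 1) * Yt) :=
      ⟨_, rfl⟩
    obtain ⟨S2, hS2⟩ : ∃ S2, S2 = ∑ j ∈ range s, r (j + 2) * Yt ^ q ^ (j + 1) := ⟨_, rfl⟩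
    have hS1' : S1 * Y 0 = (∑ j ∈ range s, r (j + 2) * Y 0 ^ q ^ (j + 1)) * Yt := by
      rw [hS1, Finset.sum_mul, Finset.sum_mul]
      refine Finset.sum_congr rfl fun j _ => ?_
      have h1 : q ^ (j + 1) = (q ^ (j + 1) - 1) + 1 := by
        have := Nat.pow_pos (n := j + 1) hq0
        omega
      conv_rhs => rw [h1, pow_succ]
      ring
    rw [← hS2] at x2
    have hy0 : P.ord (Y 0) = T - η := by linarith
    have gS1 : P.Ge S1 (((Q : ℤ) - 2) * T) := by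
      rw [hS1]
      refine P.ge_sum _ _ _ fun j hj => ?_
      have hj' := Finset.mem_range.1 hj
      have h1 := P.ge_mul (hr (j + 1) (by omega)) (P.ge_mul (ge_pow P (P.ge_ord (Y 0))
        (q ^ (j + 1) - 1)) (P.ge_ord Yt))
      refine P.ge_mono h1 ?_
      have hw : (3 : ℤ) ≤ (q : ℤ) ^ (j + 1) :=
        hq'.trans (le_self_pow₀ (by linarith) (by omega))
      have hw' : 1 ≤ q ^ (j + 1) := Nat.pow_pos hq0
      rw [hy0, e4, ← hTt, Nat.cast_sub hw', Nat.cast_one]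
      push_cast
      have h2 : 0 ≤ (-η) * ((q : ℤ) ^ (j + 1) - 1) := mul_nonneg (by linarith) (by linarith)
      have h3 : 0 ≤ (-T) * ((q : ℤ) ^ (j + 1) - 2) := mul_nonneg (by linarith) (by linarith)
      have h4 : ((Q : ℤ) - 2 * q ^ (j + 1)) * T + (((q : ℤ) ^ (j + 1) - 1) * (T - η) + T) -
          (Q - 2) * T = (-η) * ((q : ℤ) ^ (j + 1) - 1) + (-T) * ((q : ℤ) ^ (j + 1) - 2) := by
        ring
      linarith
    have gS2 : P.Ge S2 (((Q : ℤ) - 2) * T) := by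
      rw [hS2]
      refine P.ge_sum _ _ _ fun j hj => ?_
      have hj' := Finset.mem_range.1 hj
      have h1 := P.ge_mul (hr (j + 1) (by omega)) (ge_pow P (P.ge_ord Yt) (q ^ (j + 1)))
      refine P.ge_mono h1 ?_
      have hw : (3 : ℤ) ≤ (q : ℤ) ^ (j + 1) :=
        hq'.trans (le_self_pow₀ (by linarith) (by omega))
      rw [e4, ← hTt]
      push_cast
      have h3 : 0 ≤ (-T) * ((q : ℤ) ^ (j + 1) - 2) := mul_nonneg (by linarith) (by linarith)
      have h4 : ((Q : ℤ) - 2 * q ^ (j + 1)) * T + (q : ℤ) ^ (j + 1) * T - (Q - 2) * T =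
          (-T) * ((q : ℤ) ^ (j + 1) - 2) := by ring
      linarith
    obtain ⟨v, hv⟩ : ∃ v, v = Yt / Y 0 := ⟨_, rfl⟩
    have hzv : z ^ Q = v ^ Q - h ^ Q := by
      have h1 : v = z + h := by rw [hz, hv]; ring
      have h2 : Q = p ^ (f * (s + 1)) := by rw [hQ, hq, ← pow_mul]
      have h3 : v ^ Q = z ^ Q + h ^ Q := by
        rw [h1, h2]
        exact add_pow_char_pow z h p _
      rw [h3]
      ring
    have hYQ : Y 0 ^ Q ≠ 0 := pow_ne_zero _ hY0
    have h5 : (v ^ Q - v - Yp / Y 0 ^ Q) * Y 0 ^ Q = S1 - S2 - B2 + v * B1 := by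
      have h6 : v ^ Q * Y 0 ^ Q = Yt ^ Q := by
        rw [hv, div_pow, div_mul_cancel₀ _ hYQ]
      have h7 : Yp / Y 0 ^ Q * Y 0 ^ Q = Yp := div_mul_cancel₀ _ hYQ
      have h8 : v * Y 0 = Yt := by rw [hv, div_mul_cancel₀ _ hY0]
      have h9 : v * (∑ j ∈ range s, r (j + 2) * Y 0 ^ q ^ (j + 1)) = S1 := by
        have h10 : v * (∑ j ∈ range s, r (j + 2) * Y 0 ^ q ^ (j + 1)) * Y 0 = S1 * Y 0 := by
          rw [hS1', ← h8]
          ring
        exact mul_right_cancel₀ hY0 h10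
      rw [sub_mul, sub_mul, h6, h7]
      linear_combination x2 - v * x1 + r 1 * h8 + h9
    have h11 : z ^ Q - z + h = (S1 - S2 - B2 + v * B1) * (Y 0 ^ Q)⁻¹ +
        (Yp / Y 0 ^ Q - h ^ Q + 2 * h) := by
      rw [← h5, mul_assoc, mul_inv_cancel₀ hYQ, mul_one, hzv, hz, ← hv]
      ring
    rw [h11]
    refine P.ge_add ?_ c3
    have g3 : P.Ge B2 (((Q : ℤ) - 2) * T) := P.ge_mono g2 (by nlinarith)
    have g4 : P.Ge (v * B1) (((Q : ℤ) - 2) * T) := by
      have h12 : P.Ge v T := by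
        refine Or.inr ?_
        rw [hv, P.ord_div hYt0 hY0, e4, ← hTt, ← hηT]
        exact hηT'
      exact P.ge_mono (P.ge_mul h12 g1) (by linarith)
    have g5 := P.ge_add (P.ge_sub (P.ge_sub gS1 gS2) g3) g4
    have g6 : P.Ge (Y 0 ^ Q)⁻¹ (-((Q : ℤ) * (T - η))) := by
      refine Or.inr (le_of_eq ?_)
      rw [P.ord_inv hYQ, P.ord_pow hY0, hy0]
    refine P.ge_mono (P.ge_mul g5 g6) (le_of_eq ?_)
    have h13 : (Q : ℤ) * η = T + η := by linarith
    linear_combination -h13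
  refine ⟨hh0, hηQ, c3, c4, ?_⟩
  -- last part
  have hνd : nu q s = (Q - 2) + (q * Q - 2) * (q * σ) := by
    rw [nu, ← hQ, hqQ, ← hσ]
    ring
  obtain ⟨ν, hν⟩ : ∃ ν, ν = nu q s := ⟨_, rfl⟩
  rw [← hν] at hνd ⊢
  obtain ⟨A2, hA2⟩ : ∃ A2, A2 = -(X 0 ^ (q - 1) * t ^ (q * Q - 2)) := ⟨_, rfl⟩
  have hA2g : P.Ge (A2 - 1) (-T) := by
    have h1 : A2 - 1 = -(X 0 ^ (q - 1) * t ^ (q * Q - 2) + 1) := by rw [hA2]; ring
    rw [h1]
    exact P.ge_neg e1'
  obtain ⟨hA20, hA2o⟩ := ord_of_ge_one P hT1 hA2g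
  obtain ⟨g, hg⟩ : ∃ g, g = Y 0 / X 0 ^ q / h ^ ν := ⟨_, rfl⟩
  have hgQ : g ^ (Q - 1) = algebraMap k L ((-1) ^ (q * σ)) * (A1 ^ (ν + 1) *
      (A2 ^ (q * σ))⁻¹) := by
    have h1 : (X 0 ^ q) ^ (Q - 1) = (X 0 ^ (q - 1)) ^ (q * σ) := by
      rw [← pow_mul, ← pow_mul]
      congr 1
      rw [← hσQ]
      ring
    have h2 : Y 0 ^ (Q - 1) = A1 * t ^ (Q - 2) := by
      rw [hA1, div_mul_cancel₀ _ (pow_ne_zero _ ht0)]
    have h3 : (X 0 ^ (q - 1)) ^ (q * σ) * (t ^ (q * Q - 2)) ^ (q * σ) =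
        (-1) ^ (q * σ) * A2 ^ (q * σ) := by
      rw [← mul_pow, ← mul_pow, hA2]
      congr 1
      ring
    have h4 : (h ^ ν) ^ (Q - 1) = t ^ ν * (A1 ^ ν)⁻¹ := by
      rw [← pow_mul, mul_comm, pow_mul, hhQ1, mul_pow, inv_pow]
    have h5 : t ^ ν = t ^ (Q - 2) * (t ^ (q * Q - 2)) ^ (q * σ) := by
      rw [← pow_mul, ← pow_add, hνd]
    have hs : ((-1 : L) ^ (q * σ)) * (-1) ^ (q * σ) = 1 := by
      rw [← mul_pow]
      norm_num
    rw [hg, div_pow, div_pow, h1, h2, h4, h5, map_pow, map_neg, map_one]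
    have k1 : (X 0 ^ (q - 1)) ^ (q * σ) ≠ 0 := pow_ne_zero _ (pow_ne_zero _ hX0)
    have k2 : (t ^ (q * Q - 2)) ^ (q * σ) ≠ 0 := pow_ne_zero _ (pow_ne_zero _ ht0)
    have k3 : t ^ (Q - 2) ≠ 0 := pow_ne_zero _ ht0
    have k4 : A1 ^ ν ≠ 0 := pow_ne_zero _ hA10
    have k5 : A2 ^ (q * σ) ≠ 0 := pow_ne_zero _ hA20
    rw [div_div, div_eq_iff (mul_ne_zero k1 (mul_ne_zero (mul_ne_zero k3 k2) (inv_ne_zero k4)))]
    generalize (X 0 ^ (q - 1)) ^ (q * σ) = a at *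
    generalize (t ^ (q * Q - 2)) ^ (q * σ) = b at *
    generalize t ^ (Q - 2) = c at *
    generalize hd : A2 ^ (q * σ) = d at *
    generalize ((-1 : L) ^ (q * σ)) = m at *
    rw [pow_succ]
    generalize A1 ^ ν = e at *
    field_simp
    linear_combination (-m) * h3 - d * hs
  have hgest : P.Ge (g ^ (Q - 1) - algebraMap k L ((-1) ^ (q * σ))) (-T) := by
    have h1 : g ^ (Q - 1) - algebraMap k L ((-1) ^ (q * σ)) =
        algebraMap k L ((-1) ^ (q * σ)) * (A1 ^ (ν + 1) * (A2 ^ (q * σ))⁻¹ - 1) := by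
      rw [hgQ]
      ring
    rw [h1]
    have h2 := ge_one_mul P (by omega) (ge_one_pow P (by omega) e3' (ν + 1))
      (ge_one_inv P hT1 (ge_one_pow P (by omega) hA2g (q * σ)))
    have h3 := P.ge_mul (P.ge_const ((-1 : k) ^ (q * σ))) h2
    rwa [zero_add] at h3
  have hQ1k : ((Q - 1 : ℕ) : k) ≠ 0 := by
    rw [Nat.cast_sub (by omega), (CharP.cast_eq_zero_iff k p Q).2 hpQ, Nat.cast_one, zero_sub]
    exact neg_ne_zero.2 one_ne_zero
  obtain ⟨α, hα0, hα⟩ := root_est P hQ1k (pow_ne_zero _ (neg_ne_zero.2 one_ne_zero)) hT1 hgest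
  refine ⟨α, hα0, ?_⟩
  have hhν : h ^ ν ≠ 0 := pow_ne_zero _ hh0
  have h1 : Y 0 / X 0 ^ q - algebraMap k L α * h ^ ν = h ^ ν * (g - algebraMap k L α) := by
    rw [hg, mul_sub, mul_div_cancel₀ _ hhν]
    ring
  rw [h1]
  have h2 := P.ge_mul (ge_pow P (P.ge_ord h) ν) hα
  rw [← hη] at h2
  exact P.ge_mono h2 (le_of_eq (by ring))

end Pool.CND
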